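import Mathlib
import Pool.Agent.W2helper76.FR.Stm

/-!
# Piece M of helper76's project: the subspace of maximal deficiency
-/

set_option autoImplicit false

namespace Pool.Agent.W2helper55.FR

open Pool.Agent.W2helper76.FR Set

section basic

variable {κ C G : Type} [Field κ] [Field C] [Algebra κ C] [AddCommGroup G]
  (M : Multiplicative G →* C)

/-- the number attached to `g` -/
noncomputable def X (g : G) : C := M (Multiplicative.ofAdd g)

lemma X_zero : X M 0 = 1 := by simp [X]

lemma X_add (a b : G) : X M (a + b) = X M a * X M b := by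
  simp [X, ofAdd_add]

lemma X_ne (a : G) : X M a ≠ 0 := by
  intro h
  have h1 : X M (a + -a) = X M a * X M (-a) := X_add M a (-a)
  rw [add_neg_cancel, X_zero, h, zero_mul] at h1
  exact one_ne_zero h1

lemma X_neg (a : G) : X M (-a) = (X M a)⁻¹ := by
  have h1 : X M (a + -a) = X M a * X M (-a) := X_add M a (-a)
  rw [add_neg_cancel, X_zero] at h1
  exact eq_inv_of_mul_eq_one_right h1.symm

lemma X_sub (a b : G) : X M (a - b) = X M a / X M b := by
  rw [sub_eq_add_neg, X_add, X_neg, div_eq_mul_inv]

lemma X_nsmul (n : ℕ) (a : G) : X M (n • a) = X M a ^ n := by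
  induction n with
  | zero => simp [X_zero]
  | succ n ih => rw [succ_nsmul, X_add, ih, pow_succ]

lemma X_zsmul (n : ℤ) (a : G) : X M (n • a) = X M a ^ n := by
  cases n with
  | ofNat n => simpa using X_nsmul M n a
  | negSucc n => rw [negSucc_zsmul, X_neg, X_nsmul, zpow_negSucc]

lemma X_sum {ι : Type} (s : Finset ι) (f : ι → G) : X M (∑ i ∈ s, f i) = ∏ i ∈ s, X M (f i) := by
  classical
  induction s using Finset.induction_on with
  | empty => simp [X_zero]
  | insert a s ha ih => rw [Finset.sum_insert ha, Finset.prod_insert ha, X_add, ih]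

lemma isAlg_zpow {A : Subalgebra κ C} {x : C} (h : IsAlgebraic A x) (n : ℤ) :
    IsAlgebraic A (x ^ n) := by
  cases n with
  | ofNat n => simpa using h.pow n
  | negSucc n => rw [zpow_negSucc]; exact (h.pow _).inv

/-- the elements `g` for which `M g` is algebraic over `A` -/
noncomputable def algSub [Module ℚ G] (A : Subalgebra κ C) : Submodule ℚ G where
  carrier := {g | IsAlgebraic A (X M g)}
  zero_mem' := by
    change IsAlgebraic A (X M 0)
    rw [X_zero]
    exact isAlgebraic_one
  add_mem' := by
    intro a b ha hb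
    change IsAlgebraic A (X M (a + b))
    rw [X_add]
    exact IsAlgebraic.mul ha hb
  smul_mem' := by
    intro q a ha
    change IsAlgebraic A (X M (q • a))
    have h1 : (q.den : ℕ) • (q • a) = q.num • a := by
      rw [← Nat.cast_smul_eq_nsmul ℚ, smul_smul, Rat.den_mul_eq_num, Int.cast_smul_eq_zsmul]
    have h2 : IsAlgebraic A ((X M (q • a)) ^ q.den) := by
      rw [← X_nsmul, h1, X_zsmul]
      exact isAlg_zpow ha _
    exact IsAlgebraic.of_pow q.den_pos h2

end basic

section rank

variable {κ C G : Type} [Field κ] [Field C] [Algebra κ C] [AddCommGroup G]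
  (M : Multiplicative G →* C)

open AlgebraicIndependent (matroid)

lemma stepA {ι σ : Type} [Fintype ι] [Fintype σ] (g : ι → G) (u : σ → G) (d : ℕ)
    (hd : ∀ I : Finset ι, AlgebraicIndependent κ (fun i : I => X M (g i)) →
      I.card + d ≤ Fintype.card ι)
    (hJ : ∃ J : Finset (ι ⊕ σ), AlgebraicIndependent κ (fun i : J => X M (Sum.elim g u i)) ∧
      Fintype.card ι + Fintype.card σ ≤ J.card + d)
    (B : Set C) (hB : (matroid κ C).IsBasis B (range (fun i => X M (g i)))) :
    AlgebraicIndependent (Algebra.adjoin κ B) (fun k => X M (u k)) := by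
  classical
  obtain ⟨J, hJi, hJc⟩ := hJ
  have hBsub := hB.subset
  have hBfin : B.Finite := (finite_range _).subset hBsub
  have hex : ∀ b : B, ∃ i, X M (g i) = b := fun b => hBsub b.2
  choose f hf using hex
  have _ : Fintype B := hBfin.fintype
  have hfinj : Function.Injective f := by
    intro a b hab
    apply Subtype.ext
    rw [← hf a, ← hf b, hab]
  have hBi : AlgebraicIndependent κ (Subtype.val : B → C) := hB.indep
  have hIind : AlgebraicIndependent κ
      (fun i : (Finset.univ.image f : Finset ι) => X M (g i)) := by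
    have hmem : ∀ i : (Finset.univ.image f : Finset ι), X M (g i) ∈ B := by
      rintro ⟨i, hi⟩
      obtain ⟨b, -, rfl⟩ := Finset.mem_image.mp hi
      change X M (g (f b)) ∈ B
      rw [hf b]
      exact b.2
    have hφ : Function.Injective (fun i : (Finset.univ.image f : Finset ι) =>
        (⟨X M (g i), hmem i⟩ : B)) := by
      rintro ⟨i, hi⟩ ⟨j, hj⟩ hij
      obtain ⟨b, -, rfl⟩ := Finset.mem_image.mp hi
      obtain ⟨c, -, rfl⟩ := Finset.mem_image.mp hj
      have h2 : X M (g (f b)) = X M (g (f c)) := congrArg Subtype.val hij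
      rw [hf b, hf c] at h2
      have h3 : b = c := Subtype.ext h2
      subst h3
      rfl
    exact hBi.comp _ hφ
  have h1 := hd _ hIind
  rw [Finset.card_image_of_injective _ hfinj, Finset.card_univ] at h1
  set E : Set C := B ∪ range (fun k => X M (u k)) with hE
  have hEfin : E.Finite := hBfin.union (finite_range _)
  -- the rank
  have hJ1 : (matroid κ C).Indep (range (fun i : J => X M (Sum.elim g u i))) :=
    hJi.coe_range
  have hJ2 : range (fun i : J => X M (Sum.elim g u i)) ⊆ (matroid κ C).closure E := by
    rintro _ ⟨⟨i, hi⟩, rfl⟩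
    rcases i with a | b
    · have h3 : X M (g a) ∈ (matroid κ C).closure B := hB.subset_closure ⟨a, rfl⟩
      exact (matroid κ C).closure_subset_closure subset_union_left h3
    · exact (matroid κ C).mem_closure_of_mem (Or.inr ⟨b, rfl⟩) (subset_univ _)
  have hJ3 : (range (fun i : J => X M (Sum.elim g u i))).encard = (J.card : ℕ∞) := by
    rw [← image_univ, hJi.injective.injOn.encard_image, encard_univ]
    simp
  have h4 : (J.card : ℕ∞) ≤ (matroid κ C).eRk E := by
    rw [← hJ3, ← (matroid κ C).eRk_closure_eq E]
    exact hJ1.encard_le_eRk_of_subset hJ2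
  let F : σ ⊕ B → C := Sum.elim (fun k => X M (u k)) Subtype.val
  have hFr : range F = E := by
    rw [Set.Sum.elim_range, hE, union_comm, Subtype.range_coe]
  have h5 : E.encard ≤ (Fintype.card (σ ⊕ B) : ℕ∞) := by
    rw [← hFr, ← image_univ]
    refine (encard_image_le _ _).trans ?_
    rw [encard_univ]
    simp
  have h6 : (Fintype.card (σ ⊕ B) : ℕ∞) ≤ (J.card : ℕ∞) := by
    rw [Fintype.card_sum]
    exact_mod_cast (by omega)
  obtain ⟨I', hI'⟩ := (matroid κ C).exists_isBasis E
  have h7 : E.encard ≤ I'.encard := by
    rw [hI'.encard_eq_eRk]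
    exact (h5.trans h6).trans h4
  have h8 : I' = E := (hEfin.subset hI'.subset).eq_of_subset_of_encard_le hI'.subset h7
  have h9 : (matroid κ C).Indep E := h8 ▸ hI'.indep
  have h10 : AlgebraicIndependent κ (Subtype.val : E → C) := h9
  have hFinj : Function.Injective F := by
    have h11 : (Fintype.card (σ ⊕ B) : ℕ∞) ≤ E.encard :=
      (h6.trans h4).trans ((matroid κ C).eRk_le_encard E)
    have h12 : Fintype.card (σ ⊕ B) ≤ (Finset.univ.image F).card := by
      have h13 : ((Finset.univ.image F : Finset C) : Set C) = E := by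
        rw [Finset.coe_image, Finset.coe_univ, image_univ, hFr]
      rw [← h13, encard_coe_eq_coe_finsetCard] at h11
      exact_mod_cast h11
    have h14 : (Finset.univ.image F).card = (Finset.univ : Finset (σ ⊕ B)).card :=
      le_antisymm Finset.card_image_le (by rw [Finset.card_univ]; exact h12)
    have h15 := Finset.card_image_iff.mp h14
    intro a b hab
    exact h15 (by simp) (by simp) hab
  have h16 : AlgebraicIndependent κ F := by
    have h17 : Function.Injective (fun x : σ ⊕ B => (⟨F x, hFr ▸ mem_range_self x⟩ : E)) := by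
      intro a b hab
      exact hFinj (congrArg Subtype.val hab)
    exact h10.comp _ h17
  have h18 := (AlgebraicIndependent.sumElim_iff.mp h16).2
  rwa [Subtype.range_coe] at h18

end rank

end Pool.Agent.W2helper55.FR
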