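import Mathlib
import Pool.Agent.W2helper76.FR.Stm
import Pool.Agent.W2helper55.FR.Max0

/-!
# Piece M of helper76's project: the subspace of maximal deficiency
-/

set_option autoImplicit false

namespace Pool.Agent.W2helper55.FR

open Pool.Agent.W2helper76.FR Set

section monomials

variable {κ C G : Type} [Field κ] [Field C] [Algebra κ C] [AddCommGroup G]
  (M : Multiplicative G →* C)

lemma stepC {σ : Type} [Fintype σ] (A : Subalgebra κ C) (u : σ → G)
    (hu : AlgebraicIndependent A (fun k => X M (u k))) {m : ℕ} (c : Fin m → κ) (w : Fin m → G)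
    (q : Fin m → σ → ℤ) (hw : ∀ i, IsAlgebraic A (X M (w i)))
    (hrel : ∑ i, algebraMap κ C (c i) * X M (w i + ∑ k, q i k • u k) = 0) (i₀ : Fin m)
    [DecidableEq (σ → ℤ)] :
    ∑ i with q i = q i₀, algebraMap κ C (c i) * X M (w i) = 0 := by
  classical
  have hu' := hu.subalgebraAlgebraicClosure
  have hmem : ∀ i, algebraMap κ C (c i) * X M (w i) ∈ Subalgebra.algebraicClosure A C := by
    intro i
    have h1 : IsAlgebraic A (algebraMap κ C (c i)) :=
      isAlgebraic_algebraMap (R := A) (A := C) (algebraMap κ A (c i))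
    exact h1.mul (hw i)
  let b : Fin m → Subalgebra.algebraicClosure A C :=
    fun i => ⟨algebraMap κ C (c i) * X M (w i), hmem i⟩
  obtain ⟨N, hN⟩ : ∃ N : ℕ, ∀ i k, 0 ≤ q i k + N := by
    refine ⟨∑ i, ∑ k, (q i k).natAbs, fun i k => ?_⟩
    have h1 : (q i k).natAbs ≤ ∑ k, (q i k).natAbs :=
      Finset.single_le_sum (f := fun k => (q i k).natAbs) (fun _ _ => Nat.zero_le _)
        (Finset.mem_univ k)
    have h2 : ∑ k, (q i k).natAbs ≤ ∑ i, ∑ k, (q i k).natAbs :=
      Finset.single_le_sum (f := fun i => ∑ k, (q i k).natAbs) (fun _ _ => Nat.zero_le _)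
        (Finset.mem_univ i)
    have h3 : (q i k).natAbs ≤ ∑ i, ∑ k, (q i k).natAbs := h1.trans h2
    omega
  let e : Fin m → σ →₀ ℕ := fun i => Finsupp.equivFunOnFinite.symm (fun k => (q i k + N).toNat)
  have he : ∀ i, e i = e i₀ ↔ q i = q i₀ := by
    intro i
    constructor
    · intro h
      funext k
      have h1 : e i k = e i₀ k := by rw [h]
      have h2 : (q i k + N).toNat = (q i₀ k + N).toNat := h1
      have h3 := hN i k
      have h4 := hN i₀ k
      omega
    · intro h
      ext k
      change (q i k + N).toNat = (q i₀ k + N).toNat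
      rw [h]
  have hz : ∀ i k, X M (u k) ^ (e i k) = X M (u k) ^ (q i k) * X M (u k) ^ N := by
    intro i k
    have h1 : ((e i k : ℕ) : ℤ) = q i k + N := by
      change (((q i k + N).toNat : ℕ) : ℤ) = q i k + N
      exact Int.toNat_of_nonneg (hN i k)
    rw [← zpow_natCast, h1, zpow_add₀ (X_ne M _), zpow_natCast]
  let F : MvPolynomial σ (Subalgebra.algebraicClosure A C) :=
    ∑ i, MvPolynomial.monomial (e i) (b i)
  have hF : MvPolynomial.aeval (fun k => X M (u k)) F = 0 := by
    have h1 : MvPolynomial.aeval (fun k => X M (u k)) F =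
        (∑ i, algebraMap κ C (c i) * X M (w i + ∑ k, q i k • u k)) *
          ∏ k, X M (u k) ^ N := by
      rw [map_sum, Finset.sum_mul]
      refine Finset.sum_congr rfl fun i _ => ?_
      rw [MvPolynomial.aeval_monomial, Finsupp.prod_fintype _ _ (fun k => pow_zero _), X_add, X_sum]
      have h2 : ∏ k, X M (u k) ^ (e i k) = (∏ k, X M (q i k • u k)) * ∏ k, X M (u k) ^ N := by
        rw [← Finset.prod_mul_distrib]
        refine Finset.prod_congr rfl fun k _ => ?_
        rw [hz, X_zsmul]
      rw [h2]
      change (algebraMap κ C (c i) * X M (w i)) * _ = _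
      ring
    rw [h1, hrel, zero_mul]
  have hF0 : F = 0 := (algebraicIndependent_iff.mp hu') F hF
  have h3 : MvPolynomial.coeff (e i₀) F = 0 := by rw [hF0]; simp
  have h4 : MvPolynomial.coeff (e i₀) F = ∑ i with q i = q i₀, b i := by
    rw [MvPolynomial.coeff_sum, Finset.sum_filter]
    refine Finset.sum_congr rfl fun i _ => ?_
    rw [MvPolynomial.coeff_monomial]
    by_cases h5 : q i = q i₀
    · rw [if_pos ((he i).mpr h5), if_pos h5]
    · rw [if_neg (fun h => h5 ((he i).mp h)), if_neg h5]
  have h5 : ∑ i with q i = q i₀, b i = 0 := by rw [← h4, h3]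
  have h6 := congrArg (Subtype.val) h5
  rw [AddSubmonoidClass.coe_finsetSum] at h6
  exact h6

end monomials

/-- integral coordinates for finitely many vectors of a rational vector space -/
lemma lattice {Q : Type} [AddCommGroup Q] [Module ℚ Q] {m : ℕ} (x : Fin m → Q) :
    ∃ (σ : Type) (_ : Fintype σ) (b : σ → Q) (q : Fin m → σ → ℤ), LinearIndependent ℚ b ∧
      ∀ i, x i = ∑ k, q i k • b k := by
  classical
  let L : Submodule ℤ Q := Submodule.span ℤ (Set.range x)
  have : Module.Finite ℤ L := Module.Finite.span_of_finite ℤ (Set.finite_range x)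
  have : Module.IsTorsionFree ℤ Q := by
    exact Module.IsTorsionFree.trans_faithfulSMul ℤ ℚ Q
  have : Module.Free ℤ L := inferInstance
  let b := Module.Free.chooseBasis ℤ L
  have hx : ∀ i, x i ∈ L := fun i => Submodule.subset_span ⟨i, rfl⟩
  refine ⟨Module.Free.ChooseBasisIndex ℤ L, inferInstance, fun k => (b k : Q),
    fun i k => b.repr ⟨x i, hx i⟩ k, ?_, ?_⟩
  · rw [← LinearIndependent.iff_fractionRing ℤ ℚ]
    exact b.linearIndependent.map' L.subtype L.ker_subtype
  · intro i
    have h1 := b.sum_repr ⟨x i, hx i⟩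
    have h2 := congrArg L.subtype h1
    rw [map_sum] at h2
    simp only [map_smul, Submodule.subtype_apply] at h2
    exact h2.symm

theorem maxStm : MaxStm := by
  intro κ C G _ _ _ _ _ _ M n hyp
  classical
  let P : ℕ → Prop := fun d => ∃ (t : ℕ) (g : Fin t → G), LinearIndependent ℚ g ∧
    ∀ I : Finset (Fin t), AlgebraicIndependent κ (fun i : I => X M (g i)) → I.card + d ≤ t
  have hP0 : P 0 := by
    refine ⟨0, Fin.elim0, linearIndependent_empty_type, fun I _ => ?_⟩
    have := I.card_le_univ
    simpa using this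
  have hPn : ∀ d, P d → d ≤ n := by
    rintro d ⟨t, g, hg, hI⟩
    obtain ⟨I, hI1, hI2⟩ := hyp t g hg
    have := hI I hI2
    omega
  have hd := Nat.findGreatest_spec (P := P) (Nat.zero_le n) hP0
  have hmax : ∀ d', P d' → d' ≤ Nat.findGreatest P n :=
    fun d' h => Nat.le_findGreatest (hPn d' h) h
  generalize Nat.findGreatest P n = d at hd hmax
  obtain ⟨t, g, hg, hI⟩ := hd
  set W : Submodule ℚ G := Submodule.span ℚ (Set.range g) with hW
  refine ⟨W, FiniteDimensional.span_of_finite ℚ (Set.finite_range g), ?_⟩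
  intro m v hv i₁ j
  obtain ⟨B, hB⟩ := (AlgebraicIndependent.matroid κ C).exists_isBasis
    (Set.range (fun i => X M (g i)))
  have hWalg : ∀ w ∈ W, IsAlgebraic (Algebra.adjoin κ B) (X M w) := by
    have h1 : W ≤ algSub M (Algebra.adjoin κ B) := by
      rw [hW, Submodule.span_le]
      rintro _ ⟨i, rfl⟩
      have h2 : X M (g i) ∈ (AlgebraicIndependent.matroid κ C).closure B :=
        hB.subset_closure ⟨i, rfl⟩
      rw [AlgebraicIndependent.matroid_closure_eq] at h2
      exact h2
    exact fun w hw => h1 hw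
  -- the coordinates modulo `W`
  obtain ⟨σ, _, b, q, hb, hq⟩ := lattice (fun i => W.mkQ (v i - v j))
  choose u hu using fun k => W.mkQ_surjective (b k)
  have hub : (Submodule.Quotient.mk (p := W) ∘ u) = b := by
    funext k
    exact hu k
  have hgW : ∀ i, g i ∈ W := fun i => Submodule.subset_span ⟨i, rfl⟩
  have hgW' : LinearIndependent ℚ (fun i => (⟨g i, hgW i⟩ : W)) := by
    apply LinearIndependent.of_comp W.subtype
    exact hg
  have hLI : LinearIndependent ℚ (Sum.elim g u) := by
    have h1 := LinearIndependent.sumElim_of_quotient hgW' u (by rw [hub]; exact hb)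
    exact h1
  have hind : AlgebraicIndependent (Algebra.adjoin κ B) (fun k => X M (u k)) := by
    refine stepA M g u d (fun I h => by simpa using hI I h) ?_ B hB
    by_contra hcon
    push Not at hcon
    have hPd : P (d + 1) := by
      let e := Fintype.equivFin (Fin t ⊕ σ)
      refine ⟨Fintype.card (Fin t ⊕ σ), Sum.elim g u ∘ e.symm,
        hLI.comp _ e.symm.injective, fun I hI' => ?_⟩
      have h1 := hcon (I.map e.symm.toEmbedding) ?_
      · rw [Finset.card_map] at h1
        have h2 : Fintype.card (Fin t ⊕ σ) = Fintype.card (Fin t) + Fintype.card σ :=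
          Fintype.card_sum
        omega
      · have hm : ∀ x : (I.map e.symm.toEmbedding), e x.1 ∈ I := by
          rintro ⟨x, hx⟩
          obtain ⟨y, hy, rfl⟩ := Finset.mem_map.mp hx
          simpa using hy
        have h2 : Function.Injective
            (fun x : (I.map e.symm.toEmbedding) => (⟨e x.1, hm x⟩ : I)) := by
          intro x y hxy
          have h3 : e x.1 = e y.1 := congrArg Subtype.val hxy
          exact Subtype.ext (e.injective h3)
        have h3 := hI'.comp _ h2
        convert h3 using 2 with x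
        simp
    have := hmax _ hPd
    omega
  -- the relation
  obtain ⟨hdep, hmin⟩ := hv
  obtain ⟨c, hc1, i₂, hc2⟩ := Fintype.not_linearIndependent_iff.mp hdep
  have hsum : ∀ s : Fin m → κ, ∀ j₀, s j₀ = 0 →
      ∑ i, s i • M (Multiplicative.ofAdd (v i)) = 0 → ∀ i, s i = 0 := by
    intro s j₀ hs0 hs i
    by_cases hij : i = j₀
    · rw [hij, hs0]
    · have h1 := Fintype.linearIndependent_iff.mp (hmin j₀) (fun i => s i) ?_ ⟨i, hij⟩
      · exact h1
      · have h2 := Fintype.sum_subtype_add_sum_subtype (fun i => i ≠ j₀)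
          (fun i => s i • M (Multiplicative.ofAdd (v i)))
        have h3 : ∑ i : {i : Fin m // ¬ i ≠ j₀}, s i • M (Multiplicative.ofAdd (v i)) = 0 := by
          refine Finset.sum_eq_zero fun x _ => ?_
          have h4 : (x : Fin m) = j₀ := not_not.mp x.2
          rw [h4, hs0, zero_smul]
        rw [h3, add_zero, hs] at h2
        exact h2
  have hc0 : ∀ i, c i ≠ 0 := by
    intro i hi
    exact hc2 (hsum c i hi hc1 i₂)
  let w : Fin m → G := fun i => v i - v j - ∑ k, q i k • u k
  have hw : ∀ i, w i ∈ W := by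
    intro i
    rw [← Submodule.Quotient.mk_eq_zero, ← Submodule.mkQ_apply]
    change W.mkQ (v i - v j - ∑ k, q i k • u k) = 0
    rw [map_sub, hq i, map_sum]
    simp only [map_zsmul, hu, sub_self]
  have hrel : ∑ i, algebraMap κ C (c i) * X M (w i + ∑ k, q i k • u k) = 0 := by
    have h1 : ∀ i, w i + ∑ k, q i k • u k = v i - v j := fun i => by
      change v i - v j - ∑ k, q i k • u k + ∑ k, q i k • u k = v i - v j
      abel
    have h2 : ∑ i, algebraMap κ C (c i) * X M (w i + ∑ k, q i k • u k) =
        (∑ i, c i • M (Multiplicative.ofAdd (v i))) * (X M (v j))⁻¹ := by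
      rw [Finset.sum_mul]
      refine Finset.sum_congr rfl fun i _ => ?_
      rw [h1, X_sub, Algebra.smul_def, div_eq_mul_inv, mul_assoc]
      rfl
    rw [h2, hc1, zero_mul]
  have hS := stepC M (Algebra.adjoin κ B) u hind c w q (fun i => hWalg _ (hw i)) hrel j
  have hqj : q j = 0 := by
    have h1 := hq j
    rw [sub_self, map_zero] at h1
    have h2 := (LinearIndependent.iff_fractionRing ℤ ℚ).mpr hb
    funext k
    exact Fintype.linearIndependent_iff.mp h2 (fun k => q j k) h1.symm k
  -- the class of `j` is everything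
  let s : Fin m → κ := fun i => if q i = q j then c i else 0
  have hs : ∑ i, s i • M (Multiplicative.ofAdd (v i)) = 0 := by
    have h1 : ∑ i, s i • M (Multiplicative.ofAdd (v i)) =
        (∑ i with q i = q j, algebraMap κ C (c i) * X M (w i)) * X M (v j) := by
      rw [Finset.sum_filter, Finset.sum_mul]
      refine Finset.sum_congr rfl fun i _ => ?_
      change (if q i = q j then c i else 0) • M (Multiplicative.ofAdd (v i)) = _
      by_cases h : q i = q j
      · rw [if_pos h, if_pos h]
        have h2 : w i = v i - v j := by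
          change v i - v j - ∑ k, q i k • u k = v i - v j
          rw [h, hqj]
          simp
        rw [h2, X_sub, Algebra.smul_def, mul_assoc, div_mul_cancel₀ _ (X_ne M _)]
        rfl
      · rw [if_neg h, if_neg h, zero_smul, zero_mul]
    rw [h1, hS, zero_mul]
  have hall : q i₁ = q j := by
    by_contra hne
    have h1 : s i₁ = 0 := if_neg hne
    have h2 := hsum s i₁ h1 hs j
    have h3 : s j = c j := if_pos rfl
    rw [h3] at h2
    exact hc0 j h2
  have h2 : w i₁ = v i₁ - v j := by
    change v i₁ - v j - ∑ k, q i₁ k • u k = v i₁ - v j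
    rw [hall, hqj]
    simp
  rw [← h2]
  exact hw i₁

end Pool.Agent.W2helper55.FR
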